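import Pool.Agent.H.MP_cecf76_co.A

namespace Pool.Agent.Results.MP_3a192b_co.Power
open Finset Real

/-- one vertex per set; two sets are adjacent when they share fewer than `ε n` points -/
def G {n m : ℕ} (A : Fin m → Finset (Fin n)) (ε : ℝ) : SimpleGraph (Fin m) where
  Adj k l := k ≠ l ∧ ((A k ∩ A l).card : ℝ) < ε * n
  symm := ⟨fun k l h => ⟨h.1.symm, by rw [inter_comm]; exact h.2⟩⟩
  loopless := ⟨fun k h => h.1 rfl⟩

theorem result (c ε : ℝ) (c0 : 0 < c) (c1 : c ≤ 1 / 2) (e0 : 0 < ε) (e1 : ε ≤ 1) (n m : ℕ)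
    (m0 : 0 < m) :
    (∀ δ : ℝ, 0 < δ → ε ≤ c ^ (1 + 1 / δ) → ∀ A : Fin m → Finset (Fin n),
      (∀ k, c * n < (A k).card) → (G A ε).Colorable ⌈2 / c * (2 * m) ^ δ * (log m + 1)⌉₊) ∧
    (m ≤ (univ.filter fun B : Finset (Fin n) => c * n < B.card).card →
      ∃ A : Fin m → Finset (Fin n), A.Injective ∧ (∀ k, c * n < (A k).card) ∧
        ∀ k : ℕ, (G A ε).Colorable k → (m : ℝ) ^ (ε ^ 3 / 16) ≤ 3 * k) := by
  have m1 : (1 : ℝ) ≤ m := by exact_mod_cast m0
  refine ⟨fun δ d0 d1 A h => ?_, fun hm => ?_⟩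
  · have p : (1 : ℝ) ≤ (2 * m) ^ δ := one_le_rpow (by linarith) d0.le
    have q : c / 2 * (2 * m : ℝ) ^ (-δ) * (2 / c * (2 * m) ^ δ) = 1 := by
      rw [rpow_neg (by linarith)]; field_simp
    have r : 0 < c / 2 * (2 * m : ℝ) ^ (-δ) := by positivity
    have t : 1 ≤ 2 / c * (2 * m : ℝ) ^ δ :=
      one_le_mul_of_one_le_of_one_le ((one_le_div c0).mpr (by linarith)) p
    set η := c / 2 * (2 * m : ℝ) ^ (-δ)
    set K := ⌈2 / c * (2 * m : ℝ) ^ δ * (log m + 1)⌉₊
    obtain ⟨f, hf⟩ := H.MP_cecf76_co.greedy (fun k l => ε * n < (A k ∩ A l).card) (η := η)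
      (by nlinarith) (H.MP_cecf76_co.big A c0 (by linarith) e0.le d0 d1 h) K univ (by
        have k1 : (1 - η) ^ K ≤ exp (-η) ^ K :=
          pow_le_pow_left₀ (by nlinarith) (by linarith [add_one_le_exp (-η)]) _
        have k2 : log m + 1 ≤ η * K := by
          have := mul_le_mul_of_nonneg_left (Nat.le_ceil (2 / c * (2 * m : ℝ) ^ δ * (log m + 1))) r.le
          rwa [← mul_assoc, q, one_mul] at this
        rw [← exp_nat_mul] at k1
        rw [card_fin, ← exp_log (show (0 : ℝ) < m by linarith)]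
        refine (mul_le_mul_of_nonneg_left k1 (exp_pos _).le).trans_lt ?_
        rw [← exp_add, exp_lt_one_iff]
        linarith)
    exact ⟨SimpleGraph.Coloring.mk (fun v => ⟨f v, (hf v (mem_univ _)).1⟩) fun {v w} a e =>
      a.2.not_gt ((hf v (mem_univ _)).2 w (mem_univ _) a.1 (Fin.mk.inj e))⟩
  have n0 : 0 < n := Nat.pos_of_ne_zero (by
    rintro rfl
    obtain ⟨B, hB⟩ := card_pos.mp (m0.trans_le hm)
    simpa [Subsingleton.elim B ∅] using hB)
  obtain ⟨H, h0, h1, h2, h3⟩ := H.MP_cecf76_co.core n0 m0 e0 e1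
    (hm.trans (by simpa using card_le_univ (univ.filter fun B : Finset (Fin n) => c * n < B.card)))
  obtain ⟨L, l1, l2, rfl⟩ := exists_subsuperset_card_eq (fun B hB => mem_filter.mpr ⟨mem_univ _, by
    have : (n : ℝ) < 2 * B.card := by exact_mod_cast h2 _ hB
    nlinarith⟩) h1 hm
  refine ⟨fun k => L.equivFin.symm k, Subtype.val_injective.comp L.equivFin.symm.injective,
    fun k => (mem_filter.mp (l2 (Subtype.prop _))).2, fun k ⟨C⟩ => ?_⟩
  let g : Finset (Fin n) → Fin k := fun B => C (if b : B ∈ L then L.equivFin ⟨B, b⟩ else ⟨0, m0⟩)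
  have s := sum_le_card_nsmul univ _ _ fun i _ => h3 (H.filter (g · = i)) (filter_subset _ _)
    fun A hA B hB e => not_lt.mp fun b => by
      rw [mem_filter] at hA hB
      have := hA.2.trans hB.2.symm
      simp only [g, dif_pos (l1 hA.1), dif_pos (l1 hB.1)] at this
      exact C.valid ⟨fun q => e (congrArg Subtype.val (L.equivFin.injective q)), by simpa using b⟩ this
  rw [← sum_mul, ← Nat.cast_sum, ← card_eq_sum_card_fiberwise (fun _ _ => by simp), card_fin,
    nsmul_eq_mul] at s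
  have : (0 : ℝ) < H.card := by exact_mod_cast h0.card_pos
  exact le_of_mul_le_mul_left (by linarith) this

end Pool.Agent.Results.MP_3a192b_co.Power
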